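import Mathlib

set_option autoImplicit false

open Cardinal Set

namespace Pool.Agent.H.MP_95c9ea_lc

/-- a transitive distance with small balls on the successor cardinal -/
lemma rho {κ : Cardinal.{0}} (hκ : ℵ₀ ≤ κ) : ∃ r : (Order.succ κ).ord.ToType →
    (Order.succ κ).ord.ToType → κ.ord.ToType, (∀ x y z, x < y → y < z → r x z ≤ max (r x y) (r y z)) ∧
      ∀ z v, #{x | x < z ∧ r x z ≤ v} < κ := by
  have : Nonempty κ.ord.ToType := mk_ne_zero_iff.1 (by simpa using (aleph0_pos.trans_le hκ).ne')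
  have : ∀ z : (Order.succ κ).ord.ToType, ∃ f : (Order.succ κ).ord.ToType → κ.ord.ToType,
      InjOn f (Iio z) := fun z => by
    obtain ⟨f⟩ : Nonempty (Iio z ↪ κ.ord.ToType) := by
      rw [← Cardinal.le_def, mk_ord_toType, ← Order.lt_succ_iff]
      simpa using mk_Iio_lt z
    exact ⟨Function.extend Subtype.val f (Classical.arbitrary _), fun x a y b e => congrArg
      Subtype.val (f.injective (a₁ := ⟨x, a⟩) (a₂ := ⟨y, b⟩) (by
        rwa [← Subtype.val_injective.extend_apply f, ← Subtype.val_injective.extend_apply f]))⟩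
  choose f hf using this
  let T := fun v => Relation.TransGen fun x z => x < z ∧ f z x ≤ v
  have t1 : ∀ {v w x z}, v ≤ w → T v x z → T w x z := fun h =>
    Relation.TransGen.mono (fun _ _ a => And.intro a.1 (a.2.trans h)) _ _
  choose! r r1 r2 using fun x z (h : x < z) => wellFounded_lt.has_min {v | T v x z}
    ⟨_, .single ⟨h, le_rfl⟩⟩
  refine ⟨r, fun x y z a b => not_lt.1 (r2 x z (a.trans b) _ ((t1 (le_max_left _ _)
    (r1 x y a)).trans (t1 (le_max_right _ _) (r1 y z b)))), fun z v => ?_⟩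
  have l : #(Iic v) < κ := by simpa using mk_Iic_lt v (by simp) (by simpa)
  obtain ⟨c, c1, c2, c3⟩ : ∃ c : Cardinal.{0}, c.IsRegular ∧ #(Iic v) < c ∧ c ≤ κ :=
    (lt_or_ge #(Iic v) ℵ₀).elim (fun h => ⟨_, isRegular_aleph0, h, hκ⟩)
      fun h => ⟨_, isRegular_succ h, Order.lt_succ _, Order.succ_le_of_lt l⟩
  refine ((mk_le_mk_of_subset (t := {x | T v x z}) fun x a => t1 a.2 (r1 x z a.1)).trans_lt
    ?_).trans_le c3
  induction z using WellFoundedLT.induction with | _ z ih => ?_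
  have k : #{y | y < z ∧ f z y ≤ v} < c := (mk_le_of_injective (f := fun y => (⟨f z y.1, y.2.2⟩ :
    Iic v)) fun x y e => Subtype.ext (hf z x.2.1 y.2.1 (congrArg Subtype.val e))).trans_lt c2
  refine (mk_le_mk_of_subset (t := ⋃ y : {y | y < z ∧ f z y ≤ v}, insert y.1 {x | T v x y})
    fun x a => mem_iUnion.2 ?_).trans_lt ((card_iUnion_lt_iff_forall_of_isRegular c1 k).2
      fun y => mk_insert_le.trans_lt (add_one_lt_of_lt c1.1 (ih y y.2.1)))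
  cases a with
  | single a => exact ⟨⟨x, a⟩, .inl rfl⟩
  | tail a b => exact ⟨⟨_, b⟩, .inr a⟩

lemma nm {κ : Cardinal.{0}} (hκ : ℵ₀ ≤ κ) {L : Type} [LinearOrder L] [WellFoundedLT L] {H : Set L}
    (h : κ ≤ #H) : ∃ X ⊆ H, κ ≤ #X ∧ ∀ x ∈ X, ∃ y ∈ X, x < y := by
  have : κ ≤ #{a ∈ H | #{b ∈ H | b < a} < κ} := by
    by_cases k : ∃ a ∈ H, κ ≤ #{b ∈ H | b < a}
    · obtain ⟨a, a1, a2⟩ := wellFounded_lt.has_min {a ∈ H | κ ≤ #{b ∈ H | b < a}} k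
      exact a1.2.trans (mk_le_mk_of_subset fun b c => ⟨c.1, not_le.1 fun d => a2 b ⟨c.1, d⟩ c.2⟩)
    · exact h.trans (mk_le_mk_of_subset fun b c => ⟨c, not_le.1 fun d => k ⟨b, c, d⟩⟩)
  refine ⟨_, sep_subset _ _, this, fun x a => by_contra fun k => this.not_gt ((mk_le_mk_of_subset
    (t := insert x {b ∈ H | b < x}) fun y b => ?_).trans_lt (mk_insert_le.trans_lt
      (add_one_lt_of_lt hκ a.2)))⟩
  exact (not_lt.1 fun c => k ⟨y, b, c⟩).eq_or_lt.imp_right fun c => ⟨b.1, c⟩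

lemma pl {t a b c d e f : Prop} (h1 : b → ¬ c → t) (h2 : c → ¬ f → t) (h3 : f → ¬ b → t)
    (h4 : a → ¬ e → ¬ t) (h5 : d → ¬ a → ¬ t) (h6 : e → ¬ d → ¬ t) (h7 : a → d → ¬ e)
    (h8 : b → f → ¬ c) (k1 : b → ¬ a → d) (k2 : a → ¬ b → f) (k3 : d → ¬ c → b) (k4 : c → ¬ d → e)
    (k5 : f → ¬ e → a) (k6 : e → ¬ f → c) : ¬ a ∧ ¬ b ∧ ¬ c ∧ ¬ d ∧ ¬ e ∧ ¬ f := by
  by_cases t <;> by_cases a <;> by_cases b <;> by_cases c <;> simp_all

theorem cube {κ : Cardinal.{0}} (hκ : ℵ₀ ≤ κ) : ∃ c : (Order.succ κ).ord.ToType →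
    (Order.succ κ).ord.ToType → (Order.succ κ).ord.ToType → Prop, ∀ H I J : Set _,
      κ ≤ #H → κ ≤ #I → κ ≤ #J → ∀ t : Prop, ¬ ∀ a ∈ H, ∀ b ∈ I, ∀ d ∈ J, (c a b d ↔ t) := by
  obtain ⟨r, r1, r2⟩ := rho hκ
  let p := fun x y z => r y x < r z x ∨ r y x = r z x ∧ y < z
  refine ⟨fun a b d => (b < a ∧ d < a ∧ p a b d) ∨ (d < b ∧ a < b ∧ p b d a) ∨
    (a < d ∧ b < d ∧ p d a b), fun H I J h i j t k => ?_⟩
  obtain ⟨X, x1, x2, x3⟩ := nm hκ h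
  obtain ⟨Y, y1, y2, y3⟩ := nm hκ i
  obtain ⟨Z, z1, z2, z3⟩ := nm hκ j
  let S : Fin 3 → Set _ := ![X, Y, Z]
  have s1 : ∀ i, κ ≤ #(S i) := fun i => by fin_cases i <;> assumption
  have s2 : ∀ i, ∀ x ∈ S i, ∃ y ∈ S i, x < y := fun i => by fin_cases i <;> assumption
  have s3 : ∀ i, ∀ x ∈ S i, ∀ y ∈ S (i + 1), ∀ z ∈ S (i + 2), y < x → z < x → (p x y z ↔ t) := by
    intro i x a y b z c d e
    fin_cases i
    · simpa [d, e, d.not_gt, e.not_gt] using k x (x1 a) y (y1 b) z (z1 c)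
    · simpa [d, e, d.not_gt, e.not_gt] using k z (x1 c) x (y1 a) y (z1 b)
    · simpa [d, e, d.not_gt, e.not_gt] using k y (x1 b) z (y1 c) x (z1 a)
  have s4 : ∀ i x v, (∀ z ∈ S i, z < x) → ∃ z ∈ S i, v < r z x := fun i x v a => by
    by_contra! k
    exact (r2 x v).not_ge ((s1 i).trans (mk_le_mk_of_subset fun z b => ⟨a z b, k z b⟩))
  have s0 : ∀ i, (S i).Nonempty := fun i => nonempty_coe_sort.1 (mk_ne_zero_iff.1
    ((aleph0_pos.trans_le hκ).trans_le (s1 i)).ne')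
  let b := fun i j => ∃ x ∈ S i, ∀ y ∈ S j, y < x
  have b1 : ∀ i j, ¬ b i j → ∀ x ∈ S i, ∃ y ∈ S j, x < y := fun i j a x c => by
    obtain ⟨y, d, e⟩ := s2 i x c
    by_contra! k
    exact a ⟨y, d, fun z f => (k z f).trans_lt e⟩
  have b2 : ∀ i j l, b i l → ¬ b j i → ∃ x ∈ S i, ∃ y ∈ S j, y < x ∧ ∀ z ∈ S l, z < x := by
    rintro i j l ⟨x, c, d⟩ e
    obtain ⟨y, f⟩ := s0 j
    obtain ⟨w, g, m⟩ := b1 j i e y f
    exact (le_total x w).elim (fun n => ⟨w, g, y, f, m, fun z o => (d z o).trans_le n⟩)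
      fun n => ⟨x, c, y, f, m.trans_le n, d⟩
  have b3 : ∀ i, b i (i + 2) → ¬ b (i + 1) i → t := fun i a c => by
    obtain ⟨x, d, y, e, f, g⟩ := b2 _ _ _ a c
    obtain ⟨z, m, n⟩ := s4 _ x (r y x) g
    exact (s3 i x d y e z m f (g z m)).1 (.inl n)
  have b4 : ∀ i, b i (i + 1) → ¬ b (i + 2) i → ¬ t := fun i a c u => by
    obtain ⟨x, d, z, e, f, g⟩ := b2 _ _ _ a c
    obtain ⟨y, m, n⟩ := s4 _ x (r z x) g
    exact ((s3 i x d y m z e (g y m) f).2 u).elim n.asymm fun o => n.ne' o.1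
  have b5 : ∀ i j l, b i l → ¬ b i j → b j l := by
    rintro i j l ⟨x, c, d⟩ e
    obtain ⟨y, f, g⟩ := b1 i j e x c
    exact ⟨y, f, fun z m => (d z m).trans g⟩
  have b6 : ∀ i j l, b i j → b j l → ¬ b l i := by
    rintro i j l ⟨x, c, d⟩ ⟨y, e, f⟩ ⟨z, g, m⟩
    exact (m x c).asymm ((f z g).trans (d y e))
  have b7 : ∀ i, ¬ b i (i + 1) ∧ ¬ b i (i + 2) := by
    obtain ⟨h1, h2, h3, h4, h5, h6⟩ := pl (b3 0) (b3 1) (b3 2) (b4 0) (b4 1) (b4 2) (b6 0 1 2)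
      (b6 0 2 1) (b5 0 1 2) (b5 0 2 1) (b5 1 0 2) (b5 1 2 0) (b5 2 0 1) (b5 2 1 0)
    intro i
    fin_cases i
    exacts [⟨h1, h2⟩, ⟨h4, h3⟩, ⟨h5, h6⟩]
  have e1 : ∀ i : Fin 3, i + 1 + 2 = i ∧ i + 2 + 1 = i ∧ i + 1 + 1 = i + 2 ∧ i + 2 + 2 = i + 1 := by
    decide
  have ds : ∀ x y z, x < y → y < z → r y z < r x z → r y z < r x y := fun x y z a c d =>
    (lt_max_iff.1 (d.trans_le (r1 x y z a c))).resolve_right (lt_irrefl _)
  by_cases u : t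
  · have : ∀ v i, ∀ z ∈ S (i + 2), ∀ y ∈ S (i + 1), z < y → r z y ≠ v := fun v => by
      induction v using WellFoundedLT.induction with | _ v ih => ?_
      rintro i z a y c d rfl
      obtain ⟨x, e, f⟩ := b1 _ _ (b7 (i + 1)).2 y c
      rw [(e1 i).1] at e
      exact ih _ (ds z y x d f (((s3 i x e y c z a f (d.trans f)).2 u).resolve_right
        fun g => g.2.asymm d)) (i + 2) y ((e1 i).2.2.2 ▸ c) x ((e1 i).2.1.symm ▸ e) f rfl
    obtain ⟨z, a⟩ := s0 2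
    obtain ⟨y, c, d⟩ := b1 _ _ (b7 2).2 z a
    exact this _ 0 z a y c d rfl
  · have : ∀ v i, ∀ y ∈ S (i + 1), ∀ z ∈ S (i + 2), y < z → r y z ≠ v := fun v => by
      induction v using WellFoundedLT.induction with | _ v ih => ?_
      rintro i y a z c d rfl
      obtain ⟨x, e, f⟩ := b1 _ _ (b7 (i + 2)).1 z c
      rw [(e1 i).2.1] at e
      have g := not_or.1 (mt (s3 i x e y a z c (d.trans f) f).1 u)
      exact ih _ (ds y z x d f ((not_lt.1 g.1).lt_of_ne fun m => g.2 ⟨m.symm, d⟩)) (i + 1) z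
        ((e1 i).2.2.1 ▸ c) x ((e1 i).1.symm ▸ e) f rfl
    obtain ⟨y, a⟩ := s0 1
    obtain ⟨z, c, d⟩ := b1 _ _ (b7 1).1 y a
    exact this _ 0 y a z c d rfl

end Pool.Agent.H.MP_95c9ea_lc
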